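import Pool.Agent.Q271.EN.Main

set_option autoImplicit false

namespace Pool.Agent.Results.MP_7ae2b6_co.OddColours

open Pool.Agent.Q271.EN

/-- The conjecture `n_r(k) = 2 r (k - 1)` for large `k` fails for every odd `r ≥ 3`: for all odd
`r` and all `k ≥ 3` one has `n_r(k) ≤ r (2 k - 3)`, which for `r ≥ 3` is less than
`2 r (k - 1)`. In particular there is an `r ≥ 2` for which no `k₀` exists. -/
theorem result :
    (∀ r k : ℕ, Odd r → 3 ≤ r → 3 ≤ k →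
      nn r k ≤ r * (2 * k - 3) ∧ nn r k < 2 * r * (k - 1)) ∧
    ¬ ∀ r : ℕ, 2 ≤ r → ∃ k₀ : ℕ, r ≤ k₀ ∧ ∀ k : ℕ, k₀ ≤ k → nn r k = 2 * r * (k - 1) := by
  have h : ∀ r k : ℕ, Odd r → 3 ≤ r → 3 ≤ k →
      nn r k ≤ r * (2 * k - 3) ∧ nn r k < 2 * r * (k - 1) := by
    intro r k hr h3 hk
    have h1 := upper r k hr hk
    refine ⟨h1, lt_of_le_of_lt h1 ?_⟩
    have h2 : 2 * r * (k - 1) = r * (2 * (k - 1)) := by ring
    rw [h2]
    exact Nat.mul_lt_mul_of_pos_left (by omega) (by omega)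
  refine ⟨h, fun hall => ?_⟩
  obtain ⟨k₀, hk₀, hall⟩ := hall 3 (by norm_num)
  have h1 := hall k₀ le_rfl
  have h2 := (h 3 k₀ (by decide) le_rfl hk₀).2
  omega

end Pool.Agent.Results.MP_7ae2b6_co.OddColours
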